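import Pool.Agent.Helper47.HS.Defs

/-! # Project HS: continuity of the potential, strict convexity along lines -/

set_option autoImplicit false

open Set Topology

namespace Pool.Agent.Helper47.HS

variable {M F : Type*} [TopologicalSpace M] [NormedAddCommGroup F] [NormedSpace ℝ F] {dev : M → F}
  {φ : M → ℝ}

theorem continuous_of_locStrictConvex [FiniteDimensional ℝ F] (hd : IsLocalHomeomorph dev)
    (hφ : LocStrictConvex dev φ) : Continuous φ := by
  sorry

/-- Strict midpoint convexity of `φ` along an affine line. -/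
theorem along (hφ : LocStrictConvex dev φ) {c : ℝ → M} {t₀ : ℝ} (hc : ContinuousAt c t₀) {ξ : F}
    (hξ : ξ ≠ 0) (hdev : ∀ᶠ t in 𝓝 t₀, dev (c t) = dev (c t₀) + (t - t₀) • ξ) :
    ∃ η : ℝ, 0 < η ∧ ∀ t : ℝ, 0 < t → t < η →
      2 * φ (c t₀) < φ (c (t₀ - t)) + φ (c (t₀ + t)) := by
  sorry

end Pool.Agent.Helper47.HS
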