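import Pool.Agent.Helper47.HS.Defs

/-! # Project HS: the third side of a triangle -/

set_option autoImplicit false

open Set Topology

namespace Pool.Agent.Helper47.HS

variable {M F : Type*} [TopologicalSpace M] [NormedAddCommGroup F] [NormedSpace ℝ F] {dev : M → F}

theorem exists_edge [T2Space M] (hd : IsLocalHomeomorph dev) (z : M) (ξ η : F)
    (h : ∀ t : unitInterval, ∃ y, Seg dev z ((1 - (t : ℝ)) • ξ + (t : ℝ) • η) y) :
    ∃ e : C(unitInterval, M),
      ∀ t : unitInterval, Seg dev z ((1 - (t : ℝ)) • ξ + (t : ℝ) • η) (e t) := by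
  sorry

end Pool.Agent.Helper47.HS
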