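import Pool.Agent.Helper47.HS.Defs

/-! # Project HS: the exponential domain is open -/

set_option autoImplicit false

open Set Topology

namespace Pool.Agent.Helper47.HS

variable {M F : Type*} [TopologicalSpace M] [NormedAddCommGroup F] [NormedSpace ℝ F] {dev : M → F}

theorem isOpen_exp [T2Space M] (hd : IsLocalHomeomorph dev) (z : M) :
    IsOpen {ξ : F | ∃ y, Seg dev z ξ y} := by
  sorry

end Pool.Agent.Helper47.HS
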