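import Pool.Agent.Helper47.HS.Ext
import Pool.Agent.Helper47.HS.Open
import Pool.Agent.Helper47.HS.Edge

/-! # Project HS: the exponential domain is convex -/

set_option autoImplicit false

open Set Topology

namespace Pool.Agent.Helper47.HS

variable {M F : Type*} [TopologicalSpace M] [NormedAddCommGroup F] [NormedSpace ℝ F]
  [FiniteDimensional ℝ F] {dev : M → F} {φ : M → ℝ}

/-- On the third side of a triangle the potential is at most the maximum of its values at the end
points. -/
theorem edge_le [T2Space M] (hd : IsLocalHomeomorph dev) (hφ : LocStrictConvex dev φ) (z : M)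
    (ξ η : F) (h : ∀ t : unitInterval, ∃ y, Seg dev z ((1 - (t : ℝ)) • ξ + (t : ℝ) • η) y)
    {y₀ y₁ : M} (h0 : Seg dev z ξ y₀) (h1 : Seg dev z η y₁) (t : unitInterval) {y : M}
    (hy : Seg dev z ((1 - (t : ℝ)) • ξ + (t : ℝ) • η) y) : φ y ≤ max (φ y₀) (φ y₁) := by
  sorry

theorem convex_exp [T2Space M] (hd : IsLocalHomeomorph dev) (hφ : LocStrictConvex dev φ)
    (hU : Unif dev φ) (z : M) : Convex ℝ {ξ : F | ∃ y, Seg dev z ξ y} := by
  sorry

end Pool.Agent.Helper47.HS
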