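import Mathlib

/-!
# Project HS (MP_f22a19_gt): locally strictly convex potentials on affine manifolds. Definitions.

`M` is a space with a local homeomorphism `dev` to a real vector space `F` (the developing map of
an affine structure), `φ` a function on `M`.
-/

set_option autoImplicit false

open Set Topology

namespace Pool.Agent.Helper47.HS

variable {M F : Type*} [TopologicalSpace M] [NormedAddCommGroup F] [NormedSpace ℝ F]

/-- There is an affine segment in `M` which starts at `z` with velocity `ξ` and ends at `y`. -/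
def Seg (dev : M → F) (z : M) (ξ : F) (y : M) : Prop :=
  ∃ γ : C(unitInterval, M), γ 0 = z ∧ γ 1 = y ∧
    ∀ s : unitInterval, dev (γ s) = dev z + (s : ℝ) • ξ

/-- `φ` is strictly convex in the affine charts of `M`: every point has an open neighbourhood `U`
which `dev` maps injectively onto a convex set, in whose affine coordinates `φ` is strictly
convex. -/
def LocStrictConvex (dev : M → F) (φ : M → ℝ) : Prop :=
  ∀ x : M, ∃ U : Set M, IsOpen U ∧ x ∈ U ∧ Set.InjOn dev U ∧ Convex ℝ (dev '' U) ∧
    ∀ y ∈ U, ∀ z ∈ U, ∀ w ∈ U, ∀ t : ℝ, 0 < t → t < 1 → y ≠ z →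
      dev w = (1 - t) • dev y + t • dev z → φ w < (1 - t) * φ y + t * φ z

/-- Along every line through every point the second difference of `φ` on some scale is at least
`ε`. -/
def Unif (dev : M → F) (φ : M → ℝ) : Prop :=
  ∃ ε : ℝ, 0 < ε ∧ ∀ (x : M) (ξ : F), ξ ≠ 0 → ∃ δ : ℝ, 0 < δ ∧ ∃ y y' : M,
    Seg dev x (δ • ξ) y ∧ Seg dev x (-(δ • ξ)) y' ∧ 2 * φ x + ε ≤ φ y + φ y'

end Pool.Agent.Helper47.HS
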