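import Mathlib

/-! # Project HS: strictly convex functions of one variable -/

set_option autoImplicit false

open Set Topology

namespace Pool.Agent.Helper47.HS

/-- The maximum principle. -/
theorem max_endpoints {f : ℝ → ℝ} {a b : ℝ} (hab : a ≤ b) (hf : ContinuousOn f (Icc a b))
    (hloc : ∀ x ∈ Ioo a b, ∃ η : ℝ, 0 < η ∧ ∀ t : ℝ, 0 < t → t < η →
      2 * f x < f (x - t) + f (x + t)) : ∀ x ∈ Icc a b, f x ≤ max (f a) (f b) := by
  sorry

/-- Local strict convexity implies convexity. -/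
theorem convexOn_of_local {f : ℝ → ℝ} {s : Set ℝ} (hs : Convex ℝ s) (hf : ContinuousOn f s)
    (hloc : ∀ x ∈ interior s, ∃ η : ℝ, 0 < η ∧ ∀ t : ℝ, 0 < t → t < η →
      2 * f x < f (x - t) + f (x + t)) : ConvexOn ℝ s f := by
  sorry

/-- A convex function on `[0, 1)` whose second differences on small scales near `1` are at least
`ε` is unbounded. -/
theorem no_bounded {f : ℝ → ℝ} (hf : ConvexOn ℝ (Ico (0 : ℝ) 1) f) {C : ℝ}
    (hC : ∀ τ ∈ Ico (0 : ℝ) 1, f τ ≤ C) {ε : ℝ} (hε : 0 < ε)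
    (h : ∀ τ ∈ Ico (1 / 2 : ℝ) 1, ∃ δ : ℝ, 0 < δ ∧ δ < 1 - τ ∧
      2 * f τ + ε ≤ f (τ + δ) + f (τ - δ)) : False := by
  sorry

end Pool.Agent.Helper47.HS
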