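import Pool.Agent.Helper47.HS.Seg
import Pool.Agent.Helper47.HS.Along
import Pool.Agent.Helper47.HS.Line

/-! # Project HS: a segment along which the potential is bounded can be completed -/

set_option autoImplicit false

open Set Topology

namespace Pool.Agent.Helper47.HS

variable {M F : Type*} [TopologicalSpace M] [NormedAddCommGroup F] [NormedSpace ℝ F]
  [FiniteDimensional ℝ F] {dev : M → F} {φ : M → ℝ}

theorem exists_end [T2Space M] (hd : IsLocalHomeomorph dev) (hφ : LocStrictConvex dev φ)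
    (hU : Unif dev φ) (z : M) (ξ : F) (hlt : ∀ τ ∈ Ico (0 : ℝ) 1, ∃ y, Seg dev z (τ • ξ) y)
    (C : ℝ) (hC : ∀ τ ∈ Ico (0 : ℝ) 1, ∀ y, Seg dev z (τ • ξ) y → φ y ≤ C) :
    ∃ y, Seg dev z ξ y := by
  sorry

end Pool.Agent.Helper47.HS
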