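import Pool.Agent.Helper47.HS.Conv

/-! # Project HS: the developing map is injective with convex image -/

set_option autoImplicit false

open Set Topology

namespace Pool.Agent.Helper47.HS

variable {M F : Type*} [TopologicalSpace M] [NormedAddCommGroup F] [NormedSpace ℝ F]
  [FiniteDimensional ℝ F] {dev : M → F} {φ : M → ℝ}

theorem seg_all [T2Space M] [ConnectedSpace M] (hd : IsLocalHomeomorph dev)
    (hφ : LocStrictConvex dev φ) (hU : Unif dev φ) (x y : M) : Seg dev x (dev y - dev x) y := by
  sorry

theorem dev_injective [T2Space M] [ConnectedSpace M] (hd : IsLocalHomeomorph dev)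
    (hφ : LocStrictConvex dev φ) (hU : Unif dev φ) : Function.Injective dev := by
  sorry

theorem convex_range [T2Space M] [ConnectedSpace M] (hd : IsLocalHomeomorph dev)
    (hφ : LocStrictConvex dev φ) (hU : Unif dev φ) : Convex ℝ (Set.range dev) := by
  sorry

theorem exists_potential [T2Space M] [ConnectedSpace M] (hd : IsLocalHomeomorph dev)
    (hφ : LocStrictConvex dev φ) (hU : Unif dev φ) :
    ∃ ψ : F → ℝ, StrictConvexOn ℝ (Set.range dev) ψ ∧ ∀ x, ψ (dev x) = φ x := by
  sorry

end Pool.Agent.Helper47.HS
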