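import Mathlib

/-! # Project HS: the lineality space of an open convex set -/

set_option autoImplicit false

open Set Topology

namespace Pool.Agent.Helper47.HS

theorem exists_lineality {E : Type*} [NormedAddCommGroup E] [NormedSpace ℝ E] (X : Set E) :
    ∃ V : Submodule ℝ E, ∀ v, v ∈ V ↔ ∀ x ∈ X, ∀ t : ℝ, x + t • v ∈ X := by
  sorry

end Pool.Agent.Helper47.HS
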