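import Pool.Agent.Helper47.HS.Defs
import Pool.Agent.Helper84.SV.Stmt

/-! # Project HS: transport to the image of the developing map -/

set_option autoImplicit false

open Set Topology

namespace Pool.Agent.Helper47.HS

open Pool.SV

variable {m : ℕ} {M G : Type*} [TopologicalSpace M] [Group G] [MulAction G M]

/-- A developing map which is injective with convex image identifies the action of `G` on `M` with
an affine action on a convex open set. -/
theorem divides_range [T2Space M] [ConnectedSpace M] [ContinuousConstSMul G M]
    [ProperlyDiscontinuousSMul G M] (hfree : ∀ (g : G) (x : M), g • x = x → g = 1)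
    {K : Set M} (hK : IsCompact K) (hcov : ∀ x : M, ∃ g : G, ∃ y ∈ K, x = g • y)
    {dev : M → EuclideanSpace ℝ (Fin m)} (hd : IsLocalHomeomorph dev) (hol : G →* Aff m)
    (heq : ∀ (g : G) (x : M), dev (g • x) = hol g (dev x)) (hinj : Function.Injective dev)
    (hconv : Convex ℝ (Set.range dev)) :
    Divides hol.range (Set.range dev) := by
  sorry

theorem orbit_range [T2Space M] [ConnectedSpace M] [ContinuousConstSMul G M]
    {dev : M → EuclideanSpace ℝ (Fin m)} (hd : IsLocalHomeomorph dev) (hol : G →* Aff m)
    (heq : ∀ (g : G) (x : M), dev (g • x) = hol g (dev x)) (hinj : Function.Injective dev) :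
    ∃ π : Set.range dev → Quotient (MulAction.orbitRel G M),
      IsOrbitSpace hol.range (Set.range dev) (Quotient (MulAction.orbitRel G M)) π := by
  sorry

end Pool.Agent.Helper47.HS
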