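import Pool.Agent.Helper47.HS.Seg
import Pool.Agent.Helper47.HS.Along

/-! # Project HS: uniform second differences by cocompactness -/

set_option autoImplicit false

open Set Topology

namespace Pool.Agent.Helper47.HS

variable {M F : Type*} [TopologicalSpace M] [NormedAddCommGroup F] [NormedSpace ℝ F]
  [FiniteDimensional ℝ F] {dev : M → F} {φ : M → ℝ}

/-- The local statement. -/
theorem unif_local (hd : IsLocalHomeomorph dev) (hφ : LocStrictConvex dev φ) (k₀ : M) :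
    ∃ W ∈ 𝓝 k₀, ∃ r₀ : ℝ, 0 < r₀ ∧ ∀ r : ℝ, 0 < r → r ≤ r₀ → ∃ ε : ℝ, 0 < ε ∧
      ∀ k ∈ W, ∀ v : F, ‖v‖ = r → ∃ y y' : M, Seg dev k v y ∧ Seg dev k (-v) y' ∧
        2 * φ k + ε ≤ φ y + φ y' := by
  sorry

theorem unif_compact (hd : IsLocalHomeomorph dev) (hφ : LocStrictConvex dev φ) {K : Set M}
    (hK : IsCompact K) :
    ∃ r ε : ℝ, 0 < r ∧ 0 < ε ∧ ∀ k ∈ K, ∀ v : F, ‖v‖ = r → ∃ y y' : M, Seg dev k v y ∧
      Seg dev k (-v) y' ∧ 2 * φ k + ε ≤ φ y + φ y' := by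
  sorry

theorem unif_of_cocompact (hd : IsLocalHomeomorph dev) (hφ : LocStrictConvex dev φ)
    {G : Type*} [Group G] [MulAction G M] [ContinuousConstSMul G M] (hol : G →* (F ≃ᵃ[ℝ] F))
    (heq : ∀ (g : G) (x : M), dev (g • x) = hol g (dev x)) (H : Subgroup G)
    (hpot : ∀ g ∈ H, ∃ a : F →ᵃ[ℝ] ℝ, ∀ x : M, φ (g • x) = φ x + a (dev x))
    {K : Set M} (hK : IsCompact K) (hcov : ∀ x : M, ∃ g ∈ H, ∃ y ∈ K, x = g • y) :
    Unif dev φ := by
  sorry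

end Pool.Agent.Helper47.HS
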