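import Pool.Agent.Helper47.HC.Fin2
import Pool.Agent.Helper47.HS.Unif
import Pool.Agent.Helper47.HS.Join
import Pool.Agent.Helper47.HS.Trans
import Pool.Agent.Helper47.HS.Lin

/-! # Project HS: closed affine manifolds with a locally strictly convex potential -/

set_option autoImplicit false

open Set Topology

namespace Pool.Agent.Helper47.HS

open Pool.SV

theorem resHS (n : ℕ) (M G : Type*) [TopologicalSpace M] [Group G] [MulAction G M]
    [T2Space M] [ConnectedSpace M] [ContinuousConstSMul G M] [ProperlyDiscontinuousSMul G M]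
    (hfree : ∀ (g : G) (x : M), g • x = x → g = 1)
    {K : Set M} (hK : IsCompact K) (hcov : ∀ x : M, ∃ g : G, ∃ y ∈ K, x = g • y)
    {dev : M → EuclideanSpace ℝ (Fin (n + 1))} (hd : IsLocalHomeomorph dev)
    (hol : G →* Aff (n + 1)) (heq : ∀ (g : G) (x : M), dev (g • x) = hol g (dev x))
    (φ : M → ℝ) (hφ : LocStrictConvex dev φ) (H : Subgroup G) (hH : H.FiniteIndex)
    (hpot : ∀ g ∈ H, ∃ a : EuclideanSpace ℝ (Fin (n + 1)) →ᵃ[ℝ] ℝ, ∀ x : M,
      φ (g • x) = φ x + a (dev x)) :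
    ZeroSeminorm (Quotient (MulAction.orbitRel G M)) n := by
  classical
  -- `H` is cocompact
  obtain ⟨K', hK', hcov'⟩ : ∃ K' : Set M, IsCompact K' ∧ ∀ x : M, ∃ g ∈ H, ∃ y ∈ K', x = g • y := by
    sorry
  have hU : Unif dev φ := unif_of_cocompact hd hφ hol heq H hpot hK' hcov'
  have hinj := dev_injective hd hφ hU
  have hconv := convex_range hd hφ hU
  obtain ⟨ψ, hψ, hψφ⟩ := exists_potential hd hφ hU
  have hD : Divides hol.range (Set.range dev) :=
    divides_range hfree hK hcov hd hol heq hinj hconv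
  obtain ⟨π, hπ⟩ := orbit_range hd hol heq hinj
  obtain ⟨V, hV⟩ := exists_lineality (X := Set.range dev)
  refine HC.resHC n hol.range (Set.range dev) hD ⟨H.map hol, ?_, ?_, ψ, V, 0, fun _ => ⊥, 0,
    Fin.elim0, Fin.elim0, fun j => j.elim0, hψ.convexOn, ?_, hV, rfl, ?_, ?_, ?_, ?_, ?_, ?_⟩
    _ π hπ
  · rintro _ ⟨h, -, rfl⟩
    exact ⟨h, rfl⟩
  · sorry
  · rintro _ ⟨h, hh, rfl⟩
    obtain ⟨a, ha⟩ := hpot h hh
    refine ⟨a, ?_⟩
    rintro _ ⟨x, rfl⟩
    rw [← heq, hψφ, hψφ]
    exact ha x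
  · intro v
    rw [Submodule.mem_bot]
    constructor
    · rintro rfl
      exact ⟨V.zero_mem, 0, fun x _ t => by simp⟩
    · rintro ⟨hv, τ, hτ⟩
      by_contra hv0
      obtain ⟨x, hx⟩ := hD.nonempty
      have h1 : x + (1 : ℝ) • v ∈ Set.range dev := (hV v).1 hv x hx 1
      have hne : x ≠ x + (1 : ℝ) • v := by
        intro h
        apply hv0
        have h2 : x + (1 : ℝ) • v = x + 0 := by rw [← h, add_zero]
        have h3 := add_left_cancel h2
        rwa [one_smul] at h3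
      have h2 := hψ.2 hx h1 hne (show (0 : ℝ) < 1 / 2 by norm_num)
        (show (0 : ℝ) < 1 / 2 by norm_num) (by norm_num)
      have h3 : (1 / 2 : ℝ) • x + (1 / 2 : ℝ) • (x + (1 : ℝ) • v) = x + (1 / 2 : ℝ) • v := by
        module
      rw [h3, hτ x hx, hτ x hx] at h2
      simp only [smul_eq_mul] at h2
      linarith
  · intro i hi
    exact absurd hi (Nat.not_lt_zero i)
  · intro j
    exact j.elim0
  · simp
  · intro h
    exact absurd h bot_ne_top
  · intro R
    exact ⟨0, fun g _ _ i hi => absurd hi (Nat.not_lt_zero i)⟩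

end Pool.Agent.Helper47.HS
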