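import Pool.Agent.Helper47.HS.Defs

/-! # Project HS: affine segments -/

set_option autoImplicit false

open Set Topology

namespace Pool.Agent.Helper47.HS

variable {M F : Type*} [TopologicalSpace M] [NormedAddCommGroup F] [NormedSpace ℝ F] {dev : M → F}

theorem Seg.dev_eq {z y : M} {ξ : F} (h : Seg dev z ξ y) : dev y = dev z + ξ := by
  sorry

theorem Seg.refl (z : M) : Seg dev z 0 z := by
  sorry

theorem Seg.symm {z y : M} {ξ : F} (h : Seg dev z ξ y) : Seg dev y (-ξ) z := by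
  sorry

theorem Seg.split {z y : M} {ξ : F} (h : Seg dev z ξ y) {τ : ℝ} (h0 : 0 ≤ τ) (h1 : τ ≤ 1) :
    ∃ w, Seg dev z (τ • ξ) w ∧ Seg dev w ((1 - τ) • ξ) y := by
  sorry

theorem Seg.concat {z w y : M} {ξ : F} {a b : ℝ} (ha : 0 ≤ a) (hb : 0 ≤ b)
    (h : Seg dev z (a • ξ) w) (h' : Seg dev w (b • ξ) y) : Seg dev z ((a + b) • ξ) y := by
  sorry

theorem Seg.unique [T2Space M] (hd : IsLocalHomeomorph dev) {z y y' : M} {ξ : F}
    (h : Seg dev z ξ y) (h' : Seg dev z ξ y') : y = y' := by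
  sorry

/-- Signed version: both segments on the same line. -/
theorem Seg.move [T2Space M] (hd : IsLocalHomeomorph dev) {z x y : M} {ξ : F} {a b : ℝ}
    (ha : 0 ≤ a) (hab : 0 ≤ a + b) (h : Seg dev z (a • ξ) x) (h' : Seg dev x (b • ξ) y) :
    Seg dev z ((a + b) • ξ) y := by
  sorry

theorem Seg.smul {G : Type*} [Group G] [MulAction G M] [ContinuousConstSMul G M] {g : G}
    {A : F ≃ᵃ[ℝ] F} (hA : ∀ x : M, dev (g • x) = A (dev x)) {z y : M} {ξ : F}
    (h : Seg dev z ξ y) : Seg dev (g • z) (A.linear ξ) (g • y) := by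
  sorry

/-- Two points of a convex chart are joined by a segment. -/
theorem seg_of_chart (hd : IsLocalHomeomorph dev) {U : Set M} (hU : IsOpen U)
    (hinj : Set.InjOn dev U) (hc : Convex ℝ (dev '' U)) {y z : M} (hy : y ∈ U) (hz : z ∈ U) :
    Seg dev y (dev z - dev y) z := by
  sorry

end Pool.Agent.Helper47.HS
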